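import Pool.Agent.H31.CN.T6

/-!
# MP_347b49_nt: row COT of the board `cna_modules`: class group characters and characters of the
Galois group of the Hilbert class field
-/

set_option autoImplicit false

open NumberField
open scoped nonZeroDivisors

namespace Pool.Agent.H20.CN

open Pool.Agent.H31.CN Pool.Agent.H28.RC Pool.Agent.H37.CA

theorem restrict_inj {F L : Type} [Field F] [NumberField F] [Field L] [NumberField L]
    [Algebra F L] {g g' : L ≃ₐ[F] L} (h : g.restrictScalars ℚ = g'.restrictScalars ℚ) :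
    g = g' := by
  ext x
  exact congrArg (fun f : L ≃ₐ[ℚ] L => f x) h

theorem pf_COT (hGRF : T_GRF) : T_COT := by
  classical
  intro K L _ _ _ _ _ _ _ hR
  obtain ⟨θ, hmul, hFro, hsurj, hker⟩ := hR
  obtain ⟨-, -, hlift, hres, -⟩ := hGRF K L
  have htop : ∀ I : Ideal (𝓞 K), I ⊔ ⊤ = ⊤ := fun I => sup_top_eq I
  have hmul' : ∀ I J : Ideal (𝓞 K), I ≠ ⊥ → J ≠ ⊥ → θ (I * J) = θ I * θ J :=
    fun I J hI hJ => hmul I J hI hJ (htop I) (htop J)
  have hspan : ∀ a : 𝓞 K, a ≠ 0 → θ (Ideal.span {a}) = 1 := by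
    intro a ha
    refine (hker _ ?_ (htop _)).2 ⟨a, trivial, rfl⟩
    rw [Ne, Ideal.span_singleton_eq_bot]
    exact ha
  have hne : ∀ I : (Ideal (𝓞 K))⁰, (I : Ideal (𝓞 K)) ≠ ⊥ := fun I =>
    nonZeroDivisors.coe_ne_zero I
  have hwd : ∀ I J : (Ideal (𝓞 K))⁰, ClassGroup.mk0 I = ClassGroup.mk0 J →
      θ (I : Ideal (𝓞 K)) = θ (J : Ideal (𝓞 K)) := by
    intro I J h
    obtain ⟨x, y, hx, hy, hxy⟩ := ClassGroup.mk0_eq_mk0_iff.1 h
    have h1 := congrArg θ hxy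
    have hsx : Ideal.span {x} ≠ ⊥ := by rwa [Ne, Ideal.span_singleton_eq_bot]
    have hsy : Ideal.span {y} ≠ ⊥ := by rwa [Ne, Ideal.span_singleton_eq_bot]
    rw [hmul' _ _ hsx (hne I), hmul' _ _ hsy (hne J), hspan x hx, hspan y hy, one_mul,
      one_mul] at h1
    exact h1
  choose r hr using (ClassGroup.mk0_surjective (R := 𝓞 K))
  let Γ : ClassGroup (𝓞 K) →* (L ≃ₐ[K] L) := MonoidHom.mk' (fun c => θ (r c : Ideal (𝓞 K))) (by
    intro c c'
    rw [← hmul' _ _ (hne _) (hne _)]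
    have h1 := hwd (r (c * c')) (r c * r c') (by rw [map_mul, hr, hr, hr])
    rw [h1]
    rfl)
  have hΓ : ∀ I : (Ideal (𝓞 K))⁰, Γ (ClassGroup.mk0 I) = θ (I : Ideal (𝓞 K)) := by
    intro I
    exact hwd _ _ (hr _)
  have hΓinj : Function.Injective Γ := by
    rw [injective_iff_map_eq_one]
    intro c hc
    have h1 : θ (r c : Ideal (𝓞 K)) = 1 := hc
    obtain ⟨a, -, ha⟩ := (hker _ (hne _) (htop _)).1 h1
    rw [← hr c]
    exact (ClassGroup.mk0_eq_one_iff (r c).2).2 ⟨a, ha⟩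
  have hΓsurj : Function.Surjective Γ := by
    intro g
    obtain ⟨I, hI, -, hg⟩ := hsurj g
    refine ⟨ClassGroup.mk0 ⟨I, mem_nonZeroDivisors_iff_ne_zero.2 hI⟩, ?_⟩
    rw [hΓ]
    exact hg
  let δ : (L ≃ₐ[K] L) →* HF K L := MonoidHom.mk' (fun g => ⟨g.restrictScalars ℚ, hres g⟩) (by
    intro g g'
    rfl)
  have hδinj : Function.Injective δ := by
    intro g g' h
    exact restrict_inj (congrArg Subtype.val h)
  have hδsurj : Function.Surjective δ := by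
    intro h
    obtain ⟨g, hg⟩ := hlift h h.2
    exact ⟨g, Subtype.ext hg⟩
  let e : ClassGroup (𝓞 K) ≃* HF K L :=
    (MulEquiv.ofBijective Γ ⟨hΓinj, hΓsurj⟩).trans (MulEquiv.ofBijective δ ⟨hδinj, hδsurj⟩)
  refine ⟨MulEquiv.monoidHomCongrLeft e, fun ψ P g h hF hgh => ?_⟩
  have h1 : e (ClassGroup.mk0 P) = h := by
    apply Subtype.ext
    change (Γ (ClassGroup.mk0 P)).restrictScalars ℚ = (h : L ≃ₐ[ℚ] L)
    rw [hΓ, hgh, hFro _ g (htop _) hF]
  have h2 : MulEquiv.monoidHomCongrLeft e ψ h = ψ (e.symm h) := rfl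
  rw [h2, ← h1, MulEquiv.symm_apply_apply]

end Pool.Agent.H20.CN
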