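import Pool.Agent.H31.CN.T3

/-!
# MP_347b49_nt: rows DSE and ETM of the board `cna_modules`
-/

set_option autoImplicit false

open scoped Real

namespace Pool.Agent.H20.CN

open Pool.Agent.H31.CN

/-- a product over primes with summable factors is bounded -/
lemma prod_le_of_rpow {A : ℝ} (hA : 0 ≤ A) : ∃ C : ℝ, 0 < C ∧ ∀ (s : Finset ℕ) (k : ℕ → ℝ),
    (∀ p ∈ s, 0 ≤ k p ∧ k p ≤ A * (p : ℝ) ^ (-(3 / 2) : ℝ)) → ∏ p ∈ s, (1 + k p) ≤ C := by
  have hs : Summable fun n : ℕ => A * (n : ℝ) ^ (-(3 / 2) : ℝ) :=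
    (Real.summable_nat_rpow.2 (by norm_num)).mul_left A
  refine ⟨Real.exp (∑' n : ℕ, A * (n : ℝ) ^ (-(3 / 2) : ℝ)), Real.exp_pos _, fun s k hk => ?_⟩
  calc ∏ p ∈ s, (1 + k p) ≤ ∏ p ∈ s, Real.exp (k p) :=
        Finset.prod_le_prod (fun p hp => by linarith [(hk p hp).1])
          fun p _ => by rw [add_comm]; exact Real.add_one_le_exp _
    _ = Real.exp (∑ p ∈ s, k p) := (Real.exp_sum _ _).symm
    _ ≤ Real.exp (∑' n : ℕ, A * (n : ℝ) ^ (-(3 / 2) : ℝ)) := by
        refine Real.exp_le_exp.2 ((Finset.sum_le_sum fun p hp => (hk p hp).2).trans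
          (hs.sum_le_tsum s fun n _ => ?_))
        positivity

theorem pf_DSE : T_DSE := by
  classical
  obtain ⟨k, hk⟩ : ∃ k : ℕ → ℝ, k = fun p : ℕ => ((1 + 30 / Real.sqrt (p : ℝ)) ^ 8 - 1 : ℝ) :=
    ⟨fun p : ℕ => ((1 + 30 / Real.sqrt (p : ℝ)) ^ 8 - 1 : ℝ), rfl⟩
  obtain ⟨A, hA⟩ : ∃ A : ℝ, A = 8 * 31 ^ 7 * 30 := ⟨_, rfl⟩
  have hA0 : 0 ≤ A := by rw [hA]; norm_num
  obtain ⟨C, hC, hprod⟩ := prod_le_of_rpow hA0
  have hk1 : ∀ p : ℕ, 1 ≤ p → 0 ≤ k p ∧ k p / p ≤ A * (p : ℝ) ^ (-(3 / 2) : ℝ) := by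
    intro p hp
    have hp0 : (0 : ℝ) < p := by exact_mod_cast hp
    have hp1 : (1 : ℝ) ≤ p := by exact_mod_cast hp
    have hs : 1 ≤ Real.sqrt p := by
      rw [← Real.sqrt_one]; exact Real.sqrt_le_sqrt hp1
    have hs0 : 0 < Real.sqrt p := by linarith
    obtain ⟨x, hx⟩ : ∃ x : ℝ, x = 30 / Real.sqrt p := ⟨_, rfl⟩
    have hx0 : 0 < x := by rw [hx]; positivity
    have hx1 : x ≤ 30 := by
      rw [hx, div_le_iff₀ hs0]; nlinarith
    have hkx : k p = (1 + x) ^ 8 - 1 := by rw [hk, hx]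
    have h1 : (1 : ℝ) ≤ (1 + x) ^ 8 := one_le_pow₀ (by linarith)
    have h2 : (1 + x) ^ 8 - 1 ≤ 8 * 31 ^ 7 * x := by
      have e : (1 + x) ^ 8 - 1 = x * ((1 + x) ^ 7 + (1 + x) ^ 6 + (1 + x) ^ 5 + (1 + x) ^ 4 +
        (1 + x) ^ 3 + (1 + x) ^ 2 + (1 + x) + 1) := by ring
      have hb : ∀ j : ℕ, j ≤ 7 → (1 + x) ^ j ≤ 31 ^ 7 := fun j hj =>
        (pow_le_pow_left₀ (by linarith) (by linarith : 1 + x ≤ 31) j).trans
          (pow_le_pow_right₀ (by norm_num) hj)
      rw [e]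
      have b0 := hb 0 (by norm_num)
      have b1 := hb 1 (by norm_num)
      have b2 := hb 2 (by norm_num)
      have b3 := hb 3 (by norm_num)
      have b4 := hb 4 (by norm_num)
      have b5 := hb 5 (by norm_num)
      have b6 := hb 6 (by norm_num)
      have b7 := hb 7 (by norm_num)
      rw [pow_zero] at b0
      rw [pow_one] at b1
      have : (1 + x) ^ 7 + (1 + x) ^ 6 + (1 + x) ^ 5 + (1 + x) ^ 4 +
        (1 + x) ^ 3 + (1 + x) ^ 2 + (1 + x) + 1 ≤ 8 * 31 ^ 7 := by linarith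
      calc _ ≤ x * (8 * 31 ^ 7) := mul_le_mul_of_nonneg_left this hx0.le
        _ = _ := by ring
    refine ⟨by rw [hkx]; linarith, ?_⟩
    have e1 : (p : ℝ) ^ (-(3 / 2) : ℝ) = 1 / Real.sqrt p / p := by
      rw [Real.sqrt_eq_rpow, show (-(3 / 2) : ℝ) = -(1 / 2) - 1 by norm_num,
        Real.rpow_sub_one hp0.ne', Real.rpow_neg hp0.le]
      congr 1
      exact (one_div _).symm
    rw [e1, hkx, ← mul_div_assoc]
    refine div_le_div_of_nonneg_right ?_ hp0.le
    refine h2.trans ?_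
    rw [hx, hA]
    apply le_of_eq
    ring
  refine ⟨C * (1 / Real.log 2 + 1), by
    have := Real.log_pos (by norm_num : (1 : ℝ) < 2)
    positivity, fun M hM => ?_⟩
  have hlog2 := Real.log_pos (by norm_num : (1 : ℝ) < 2)
  have hlogM : Real.log 2 ≤ Real.log M := Real.log_le_log (by norm_num) hM
  obtain ⟨n, hn⟩ : ∃ n : ℕ, n = ⌊M⌋₊ := ⟨_, rfl⟩
  rw [← hn]
  obtain ⟨S, hS⟩ : ∃ S : Finset ℕ, S = (Finset.Icc 1 n).filter (fun d => Squarefree d) :=
    ⟨_, rfl⟩
  rw [← hS]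
  obtain ⟨Pr, hPr⟩ : ∃ Pr : Finset ℕ, Pr = (Finset.Icc 1 n).filter Nat.Prime := ⟨_, rfl⟩
  have hpf : ∀ d ∈ S, d.primeFactors ⊆ Pr := by
    intro d hd p hp
    rw [hS, Finset.mem_filter, Finset.mem_Icc] at hd
    rw [hPr, Finset.mem_filter, Finset.mem_Icc]
    have hpp := Nat.prime_of_mem_primeFactors hp
    exact ⟨⟨hpp.one_lt.le, (Nat.le_of_dvd (by omega) (Nat.dvd_of_mem_primeFactors hp)).trans
      hd.1.2⟩, hpp⟩
  have hEf : ∀ d : ℕ, Ef d ^ 8 = ∑ t ∈ d.primeFactors.powerset, ∏ p ∈ t, k p := by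
    intro d
    rw [← Finset.prod_one_add]
    unfold Ef
    rw [← Finset.prod_pow]
    refine Finset.prod_congr rfl fun p _ => ?_
    rw [hk]
    ring
  -- the harmonic sum over multiples
  have hharm : ∑ a ∈ Finset.Icc 1 n, (1 : ℝ) / a ≤ 1 + Real.log M := by
    have h1 := harmonic_floor_le_one_add_log M (by linarith)
    rw [← hn] at h1
    refine le_trans (le_of_eq ?_) h1
    rw [harmonic_eq_sum_Icc]
    push_cast
    exact Finset.sum_congr rfl fun a _ => one_div _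
  have hmul : ∀ b : ℕ, 1 ≤ b → ∑ d ∈ S.filter (fun d => b ∣ d), (1 : ℝ) / d ≤
      1 / b * (1 + Real.log M) := by
    intro b hb
    have h1 : ∑ d ∈ S.filter (fun d => b ∣ d), (1 : ℝ) / d ≤
        ∑ a ∈ Finset.Icc 1 n, 1 / (b : ℝ) * (1 / a) := by
      have h2 : S.filter (fun d => b ∣ d) ⊆ (Finset.Icc 1 n).image (fun a => b * a) := by
        intro d hd
        rw [Finset.mem_filter, hS, Finset.mem_filter, Finset.mem_Icc] at hd
        obtain ⟨⟨⟨hd1, hd2⟩, -⟩, a, rfl⟩ := hd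
        rw [Finset.mem_image]
        refine ⟨a, Finset.mem_Icc.2 ⟨?_, ?_⟩, rfl⟩
        · rcases Nat.eq_zero_or_pos a with h | h
          · rw [h, mul_zero] at hd1
            omega
          · exact h
        · exact (Nat.le_mul_of_pos_left a hb).trans hd2
      refine (Finset.sum_le_sum_of_subset_of_nonneg h2 fun _ _ _ => by positivity).trans ?_
      rw [Finset.sum_image fun a _ a' _ h => Nat.eq_of_mul_eq_mul_left hb h]
      refine Finset.sum_le_sum fun a _ => le_of_eq ?_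
      push_cast
      rw [one_div_mul_one_div]
    refine h1.trans ?_
    rw [← Finset.mul_sum]
    exact mul_le_mul_of_nonneg_left hharm (by positivity)
  have hmain : ∑ d ∈ S, Ef d ^ 8 / d ≤ (∏ p ∈ Pr, (1 + k p / p)) * (1 + Real.log M) := by
    have h1 : ∑ d ∈ S, Ef d ^ 8 / d = ∑ t ∈ Pr.powerset, (∏ p ∈ t, k p) *
        ∑ d ∈ S.filter (fun d => t ⊆ d.primeFactors), (1 : ℝ) / d := by
      have h2 : ∀ d ∈ S, Ef d ^ 8 / d = ∑ t ∈ Pr.powerset,
          if t ⊆ d.primeFactors then (∏ p ∈ t, k p) * (1 / (d : ℝ)) else 0 := by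
        intro d hd
        rw [← Finset.sum_filter, hEf d, Finset.sum_div]
        have h3 : d.primeFactors.powerset = Pr.powerset.filter (fun t => t ⊆ d.primeFactors) := by
          ext t
          rw [Finset.mem_filter, Finset.mem_powerset, Finset.mem_powerset]
          exact ⟨fun h => ⟨h.trans (hpf d hd), h⟩, fun h => h.2⟩
        rw [h3]
        exact Finset.sum_congr rfl fun t _ => by rw [mul_one_div]
      rw [Finset.sum_congr rfl h2, Finset.sum_comm]
      refine Finset.sum_congr rfl fun t _ => ?_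
      rw [← Finset.sum_filter, Finset.mul_sum]
    rw [h1, Finset.prod_one_add, Finset.sum_mul]
    refine Finset.sum_le_sum fun t ht => ?_
    rw [Finset.mem_powerset] at ht
    have htp : ∀ p ∈ t, p.Prime := fun p hp => by
      have := ht hp
      rw [hPr, Finset.mem_filter] at this
      exact this.2
    have hk0 : 0 ≤ ∏ p ∈ t, k p := Finset.prod_nonneg fun p hp => (hk1 p (htp p hp).one_lt.le).1
    have hb : 1 ≤ ∏ p ∈ t, p := Nat.one_le_iff_ne_zero.2 (Finset.prod_ne_zero_iff.2 fun p hp =>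
      (htp p hp).ne_zero)
    have h4 : ∑ d ∈ S.filter (fun d => t ⊆ d.primeFactors), (1 : ℝ) / d ≤
        1 / ((∏ p ∈ t, p : ℕ) : ℝ) * (1 + Real.log M) := by
      refine le_trans ?_ (hmul _ hb)
      refine Finset.sum_le_sum_of_subset_of_nonneg (fun d hd => ?_) fun _ _ _ => by positivity
      rw [Finset.mem_filter] at hd ⊢
      refine ⟨hd.1, ?_⟩
      exact (Finset.prod_dvd_prod_of_subset _ _ _ hd.2).trans (Nat.prod_primeFactors_dvd d)
    refine (mul_le_mul_of_nonneg_left h4 hk0).trans (le_of_eq ?_)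
    rw [← mul_assoc, Finset.prod_div_distrib]
    push_cast
    ring
  have hfin : ∏ p ∈ Pr, (1 + k p / p) ≤ C := by
    refine hprod Pr (fun p => k p / p) fun p hp => ?_
    rw [hPr, Finset.mem_filter] at hp
    have h1 := hk1 p hp.2.one_lt.le
    exact ⟨div_nonneg h1.1 (Nat.cast_nonneg _), h1.2⟩
  have hlogM0 : 0 < Real.log M := by linarith
  calc ∑ d ∈ S, Ef d ^ 8 / d ≤ (∏ p ∈ Pr, (1 + k p / p)) * (1 + Real.log M) := hmain
    _ ≤ C * (1 + Real.log M) := mul_le_mul_of_nonneg_right hfin (by linarith)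
    _ ≤ C * ((1 / Real.log 2 + 1) * Real.log M) := by
        refine mul_le_mul_of_nonneg_left ?_ hC.le
        have : 1 ≤ 1 / Real.log 2 * Real.log M := by
          rw [one_div, inv_mul_eq_div, le_div_iff₀ hlog2]
          linarith
        linarith
    _ = C * (1 / Real.log 2 + 1) * Real.log M := by ring

/-- powers of the symbols -/
lemma prod_E (t : Finset ℕ) : ∏ p ∈ t, E (Real.log p) (Real.log p) =
    E (∑ p ∈ t, Real.log p) (∑ p ∈ t, Real.log p) := by
  classical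
  induction t using Finset.induction_on with
  | empty => simp [E_zero]
  | insert a s ha ih =>
    rw [Finset.prod_insert ha, ih, E_mul, Finset.sum_insert ha]

lemma prod_et (s : Finset ℕ) : ∏ p ∈ s, et p = ∑ t ∈ s.powerset,
    ((∏ p ∈ t, (-(1 / (p : ℝ) ^ 3))) * ∏ p ∈ s \ t, (1 / (p : ℝ))) •
      E (∑ p ∈ t, Real.log p) (∑ p ∈ t, Real.log p) := by
  classical
  have h : ∀ p : ℕ, et p = (-(1 / (p : ℝ) ^ 3)) • E (Real.log p) (Real.log p) +
      (1 / (p : ℝ)) • (1 : GR) := by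
    intro p
    unfold et
    rw [neg_smul]
    abel
  rw [Finset.prod_congr rfl fun p _ => h p, Finset.prod_add]
  refine Finset.sum_congr rfl fun t _ => ?_
  rw [Finset.prod_smul, Finset.prod_smul, Finset.prod_const_one, prod_E, smul_mul_smul_comm,
    mul_one]

theorem pf_ETM : T_ETM := by
  classical
  obtain ⟨C, hC, hprod⟩ := prod_le_of_rpow (A := 1) zero_le_one
  refine ⟨216 * C, by positivity, fun d hd => ⟨?_, fun i j hij => ?_⟩⟩
  · rw [prod_et, map_sum]
    unfold gd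
    have : ∀ p ∈ d.primeFactors, (1 / (p : ℝ) - 1 / (p : ℝ) ^ 3) =
        (-(1 / (p : ℝ) ^ 3)) + 1 / (p : ℝ) := fun p _ => by ring
    rw [Finset.prod_congr rfl this, Finset.prod_add]
    refine Finset.sum_congr rfl fun t _ => ?_
    rw [map_smul, mo_E, pow_zero, mul_one, smul_eq_mul, mul_one]
  · have hd0 : d ≠ 0 := hd.ne_zero
    have hdp : (0 : ℝ) < d := by exact_mod_cast Nat.pos_of_ne_zero hd0
    have hpos : ∀ p ∈ d.primeFactors, (0 : ℝ) < p := fun p hp => by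
      exact_mod_cast (Nat.prime_of_mem_primeFactors hp).pos
    have hprodd : ∏ p ∈ d.primeFactors, (1 / (p : ℝ)) = 1 / d := by
      rw [Finset.prod_div_distrib, Finset.prod_const_one]
      congr 1
      rw [← Nat.cast_prod, Nat.prod_primeFactors_of_squarefree hd]
    rw [prod_et, map_sum]
    refine (Finset.abs_sum_le_sum_abs _ _).trans ?_
    have hterm : ∀ t ∈ d.primeFactors.powerset,
        |mo i j (((∏ p ∈ t, (-(1 / (p : ℝ) ^ 3))) * ∏ p ∈ d.primeFactors \ t, (1 / (p : ℝ))) •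
          E (∑ p ∈ t, Real.log p) (∑ p ∈ t, Real.log p))| ≤
        216 / d * ∏ p ∈ t, (p : ℝ) ^ (-(3 / 2) : ℝ) := by
      intro t ht
      rw [Finset.mem_powerset] at ht
      rw [map_smul, mo_E, ← pow_add, smul_eq_mul, abs_mul, abs_mul, Finset.abs_prod,
        Finset.abs_prod]
      have e1 : ∀ p ∈ t, |-(1 / (p : ℝ) ^ 3)| = 1 / (p : ℝ) * (1 / (p : ℝ) ^ 2) := fun p hp => by
        have := hpos p (ht hp)
        rw [abs_neg, abs_of_pos (by positivity)]
        field_simp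
      have e2 : ∀ p ∈ d.primeFactors \ t, |1 / (p : ℝ)| = 1 / (p : ℝ) := fun p hp => by
        have := hpos p (Finset.mem_sdiff.1 hp).1
        exact abs_of_pos (by positivity)
      rw [Finset.prod_congr rfl e1, Finset.prod_congr rfl e2, Finset.prod_mul_distrib]
      have e3 : (∏ p ∈ t, (1 / (p : ℝ))) * (∏ p ∈ t, (1 / (p : ℝ) ^ 2)) *
          ∏ p ∈ d.primeFactors \ t, (1 / (p : ℝ)) = 1 / d * ∏ p ∈ t, (1 / (p : ℝ) ^ 2) := by
        rw [← hprodd, ← Finset.prod_sdiff ht]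
        ring
      rw [e3]
      -- the logarithm
      obtain ⟨g, hg⟩ : ∃ g : ℝ, g = ∏ p ∈ t, (p : ℝ) := ⟨_, rfl⟩
      have hg1 : 1 ≤ g := by
        rw [hg, ← Nat.cast_prod]
        exact_mod_cast Nat.one_le_iff_ne_zero.2 (Finset.prod_ne_zero_iff.2 fun p hp =>
          (Nat.prime_of_mem_primeFactors (ht hp)).ne_zero)
      have hgl : ∑ p ∈ t, Real.log p = Real.log g := by
        rw [hg, Real.log_prod fun p hp => (hpos p (ht hp)).ne']
      have hl0 : 0 ≤ Real.log g := Real.log_nonneg hg1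
      have hlog : Real.log g ≤ 6 * g ^ (1 / 6 : ℝ) := by
        have := Real.log_le_rpow_div (x := g) (by linarith) (by norm_num : (0 : ℝ) < 1 / 6)
        linarith
      have h6 : 1 ≤ 6 * g ^ (1 / 6 : ℝ) := by
        have := Real.one_le_rpow hg1 (by norm_num : (0 : ℝ) ≤ 1 / 6)
        linarith
      have hpow : |(Real.log g) ^ (i + j)| ≤ 216 * g ^ (1 / 2 : ℝ) := by
        rw [abs_of_nonneg (pow_nonneg hl0 _)]
        calc (Real.log g) ^ (i + j) ≤ (6 * g ^ (1 / 6 : ℝ)) ^ (i + j) :=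
              pow_le_pow_left₀ hl0 hlog _
          _ ≤ (6 * g ^ (1 / 6 : ℝ)) ^ 3 := pow_le_pow_right₀ h6 hij
          _ = 216 * g ^ (1 / 2 : ℝ) := by
              rw [mul_pow, ← Real.rpow_natCast (g ^ (1 / 6 : ℝ)) 3, ← Real.rpow_mul (by linarith)]
              norm_num
      rw [hgl]
      have e4 : g ^ (1 / 2 : ℝ) = ∏ p ∈ t, (p : ℝ) ^ (1 / 2 : ℝ) := by
        rw [hg]
        exact (Real.finsetProd_rpow _ _ (fun p hp => (hpos p (ht hp)).le) _).symm
      have hq : 0 ≤ 1 / (d : ℝ) * ∏ p ∈ t, (1 / (p : ℝ) ^ 2) :=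
        mul_nonneg (by positivity) (Finset.prod_nonneg fun p _ => by positivity)
      refine (mul_le_mul_of_nonneg_left hpow hq).trans (le_of_eq ?_)
      rw [e4]
      have e5 : (∏ p ∈ t, (1 / (p : ℝ) ^ 2)) * ∏ p ∈ t, (p : ℝ) ^ (1 / 2 : ℝ) =
          ∏ p ∈ t, (p : ℝ) ^ (-(3 / 2) : ℝ) := by
        rw [← Finset.prod_mul_distrib]
        refine Finset.prod_congr rfl fun p hp => ?_
        have := hpos p (ht hp)
        rw [one_div, ← Real.rpow_natCast, ← Real.rpow_neg this.le, ← Real.rpow_add this]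
        norm_num
      rw [← e5]
      ring
    refine (Finset.sum_le_sum hterm).trans ?_
    rw [← Finset.mul_sum, ← Finset.prod_one_add]
    have h9 := hprod d.primeFactors (fun p => (p : ℝ) ^ (-(3 / 2) : ℝ)) fun p _ =>
      ⟨by positivity, by rw [one_mul]⟩
    calc 216 / (d : ℝ) * ∏ p ∈ d.primeFactors, (1 + (p : ℝ) ^ (-(3 / 2) : ℝ)) ≤
          216 / (d : ℝ) * C := mul_le_mul_of_nonneg_left h9 (by positivity)
      _ = 216 * C / d := by ring

end Pool.Agent.H20.CN
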