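import Pool.Agent.H31.CN.T6
import Pool.Agent.H46.CA.NGN

/-!
# MP_347b49_nt: row INV of the board `cna_modules`: the Galois group of the Hilbert class field of
an imaginary quadratic field
-/

set_option autoImplicit false

open NumberField
open scoped nonZeroDivisors Pointwise

namespace Pool.Agent.H20.CN.INV

open Pool.Agent.H31.CN Pool.Agent.H28.RC Pool.Agent.H37.CA

section quadratic

variable {K : Type} [Field K] [NumberField K] [IsGalois ℚ K]

/-- the group of automorphisms of a quadratic field -/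
lemma two (h2 : Module.finrank ℚ K = 2) {σ : K ≃ₐ[ℚ] K} (hσ : σ ≠ 1) (τ : K ≃ₐ[ℚ] K) :
    τ = 1 ∨ τ = σ := by
  have hc : Nat.card (K ≃ₐ[ℚ] K) = 2 := by
    rw [IsGalois.card_aut_eq_finrank, h2]
  obtain ⟨y, -, hy⟩ := (Nat.card_eq_two_iff' (1 : K ≃ₐ[ℚ] K)).1 hc
  by_cases h : τ = 1
  · exact Or.inl h
  · right
    rw [hy τ h, hy σ hσ]

lemma sq_one (h2 : Module.finrank ℚ K = 2) {σ : K ≃ₐ[ℚ] K} (hσ : σ ≠ 1) : σ * σ = 1 := by
  rcases two h2 hσ (σ * σ) with h | h
  · exact h
  · exact absurd (mul_eq_left.1 h) hσ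

/-- an integer fixed by the conjugation is rational -/
lemma fixed_int (h2 : Module.finrank ℚ K = 2) {σ : K ≃ₐ[ℚ] K} (hσ : σ ≠ 1) (y : 𝓞 K)
    (hy : σ • y = y) : ∃ m : ℤ, (m : 𝓞 K) = y := by
  have h1 : (y : K) ∈ Set.range (algebraMap ℚ K) := by
    rw [IsGalois.mem_range_algebraMap_iff_fixed]
    intro τ
    rcases two h2 hσ τ with rfl | rfl
    · rfl
    · exact congrArg (fun z : 𝓞 K => (z : K)) hy
  obtain ⟨q, hq⟩ := h1
  have h3 : IsIntegral ℤ q := by
    have h4 : IsIntegral ℤ (algebraMap ℚ K q) := by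
      rw [hq]
      exact RingOfIntegers.isIntegral_coe y
    exact (isIntegral_algebraMap_iff (algebraMap ℚ K).injective).1 h4
  obtain ⟨m, hm⟩ := IsIntegrallyClosed.isIntegral_iff.1 h3
  refine ⟨m, ?_⟩
  apply RingOfIntegers.ext
  rw [← hq, ← hm]
  simp

/-- the product of an ideal of a quadratic field and its conjugate is principal -/
lemma smul_mul_principal (h2 : Module.finrank ℚ K = 2) {σ : K ≃ₐ[ℚ] K} (hσ : σ ≠ 1)
    (I : Ideal (𝓞 K)) : ∃ n : ℤ, (σ • I) * I = Ideal.span {(n : 𝓞 K)} := by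
  have hσσ : ∀ y : 𝓞 K, σ • σ • y = y := by
    intro y
    rw [smul_smul, sq_one h2 hσ, one_smul]
  have hinv : σ⁻¹ = σ := by
    rw [inv_eq_iff_mul_eq_one]
    exact sq_one h2 hσ
  obtain ⟨J, hJ⟩ : ∃ J : Ideal (𝓞 K), J = (σ • I) * I := ⟨_, rfl⟩
  rw [← hJ]
  have hprod : ∀ b ∈ I, ∀ s ∈ I, (σ • b) * s ∈ J := by
    intro b hb s hs
    rw [hJ]
    exact Ideal.mul_mem_mul (Ideal.smul_mem_pointwise_smul σ b I hb) hs
  obtain ⟨n, hn⟩ := (IsPrincipalIdealRing.principal (J.comap (Int.castRingHom (𝓞 K))))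
  have hmem : ∀ m : ℤ, (m : 𝓞 K) ∈ J ↔ n ∣ m := by
    intro m
    have h1 : m ∈ J.comap (Int.castRingHom (𝓞 K)) ↔ (m : 𝓞 K) ∈ J := by
      rw [Ideal.mem_comap]
      rfl
    rw [← h1, hn]
    exact Ideal.mem_span_singleton
  refine ⟨n, le_antisymm ?_ ?_⟩
  · rw [hJ, Ideal.mul_le]
    intro r hr s hs
    obtain ⟨b, hb, rfl⟩ : ∃ b ∈ I, σ • b = r :=
      ⟨σ⁻¹ • r, Ideal.mem_pointwise_smul_iff_inv_smul_mem.1 hr, smul_inv_smul σ r⟩
    -- three integers
    have e1 : σ • ((σ • b) * s + (σ • s) * b) = (σ • b) * s + (σ • s) * b := by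
      rw [smul_add, smul_mul', smul_mul', hσσ, hσσ]
      ring
    have e2 : σ • ((σ • b) * b) = (σ • b) * b := by
      rw [smul_mul', hσσ, mul_comm]
    have e3 : σ • ((σ • s) * s) = (σ • s) * s := by
      rw [smul_mul', hσσ, mul_comm]
    obtain ⟨T, hT⟩ := fixed_int h2 hσ _ e1
    obtain ⟨B, hB⟩ := fixed_int h2 hσ _ e2
    obtain ⟨S, hS⟩ := fixed_int h2 hσ _ e3
    have hTJ : (T : 𝓞 K) ∈ J := by
      rw [hT]
      exact J.add_mem (hprod b hb s hs) (hprod s hs b hb)
    have hBJ : (B : 𝓞 K) ∈ J := by rw [hB]; exact hprod b hb b hb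
    have hSJ : (S : 𝓞 K) ∈ J := by rw [hS]; exact hprod s hs s hs
    obtain ⟨T', hT'⟩ := (hmem T).1 hTJ
    obtain ⟨B', hB'⟩ := (hmem B).1 hBJ
    obtain ⟨S', hS'⟩ := (hmem S).1 hSJ
    rw [Ideal.mem_span_singleton]
    by_cases hn0 : n = 0
    · have h3 : (σ • s) * s = 0 := by
        rw [← hS, hS', hn0]
        simp
      have h4 : s = 0 := by
        rcases mul_eq_zero.1 h3 with h | h
        · have := congrArg (fun z => σ • z) h
          simp only [smul_zero] at this
          rw [hσσ] at this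
          exact this
        · exact h
      rw [h4, mul_zero]
      exact dvd_zero _
    · have hnK : (n : K) ≠ 0 := by exact_mod_cast hn0
      have key : ((σ • b) * s) * ((σ • b) * s) - (T : 𝓞 K) * ((σ • b) * s) +
          (B : 𝓞 K) * (S : 𝓞 K) = 0 := by
        rw [hT, hB, hS]
        ring
      obtain ⟨t, ht⟩ : ∃ t : 𝓞 K, t = (σ • b) * s := ⟨_, rfl⟩
      rw [← ht] at key ⊢
      rw [hT', hB', hS'] at key
      have keyK := congrArg (fun z : 𝓞 K => (z : K)) key
      simp only [map_sub, map_add, map_mul, map_intCast, map_zero, Int.cast_mul] at keyK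
      have hint : IsIntegral ℤ ((t : K) / (n : K)) := by
        refine ⟨Polynomial.X ^ 2 + (Polynomial.C (-T') * Polynomial.X +
          Polynomial.C (B' * S')), ?_, ?_⟩
        · refine Polynomial.monic_X_pow_add ?_
          refine lt_of_le_of_lt Polynomial.degree_linear_le ?_
          norm_num
        · rw [← Polynomial.aeval_def]
          simp only [map_add, map_mul, map_pow, Polynomial.aeval_X, Polynomial.aeval_C, map_neg]
          have e4 : (algebraMap ℤ K) T' = (T' : K) := rfl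
          have e5 : (algebraMap ℤ K) B' = (B' : K) := rfl
          have e6 : (algebraMap ℤ K) S' = (S' : K) := rfl
          rw [e4, e5, e6]
          field_simp
          linear_combination keyK
      obtain ⟨u, hu⟩ : ∃ u : 𝓞 K, (u : K) = (t : K) / (n : K) := ⟨⟨_, hint⟩, rfl⟩
      refine ⟨u, ?_⟩
      apply RingOfIntegers.ext
      change (algebraMap (𝓞 K) K) t = (algebraMap (𝓞 K) K) ((n : 𝓞 K) * u)
      have hu' : (algebraMap (𝓞 K) K) u = (algebraMap (𝓞 K) K) t / (n : K) := hu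
      rw [map_mul, map_intCast, hu']
      field_simp
  · rw [Ideal.span_singleton_le_iff_mem]
    exact (hmem n).2 dvd_rfl

end quadratic

theorem pf_INV (hFRE : Pool.Agent.H28.RC.T_FRE) (hGRF : Pool.Agent.H37.CA.T_GRF) : T_INV := by
  classical
  intro K L _ _ _ _ _ _ _ _ h2 hR
  obtain ⟨θ, hmul, hFro, hsurj, hker⟩ := hR
  obtain ⟨hnorm, hidx, hlift, hres, hσ'⟩ := hGRF K L
  rw [h2] at hidx
  have hGal : IsGalois K L := IsGalois.tower_top_of_isGalois ℚ K L
  have htop : ∀ I : Ideal (𝓞 K), I ⊔ ⊤ = ⊤ := fun I => sup_top_eq I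
  have hmul' : ∀ I J : Ideal (𝓞 K), I ≠ ⊥ → J ≠ ⊥ → θ (I * J) = θ I * θ J :=
    fun I J hI hJ => hmul I J hI hJ (htop I) (htop J)
  have hrmul : ∀ a b : L ≃ₐ[K] L, (a * b).restrictScalars ℚ =
      a.restrictScalars ℚ * b.restrictScalars ℚ := fun a b => rfl
  have hsm : ∀ (σ : K ≃ₐ[ℚ] K) (I : Ideal (𝓞 K)), I ≠ ⊥ → σ • I ≠ ⊥ := by
    intro σ I hI h
    apply hI
    have := congrArg (fun J => σ⁻¹ • J) h
    simp only [inv_smul_smul] at this
    rw [this, ← Pool.Agent.H46.CA.cj_eq, cj, Ideal.map_bot]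
  -- the main relation
  have key : ∀ g : L ≃ₐ[ℚ] L, g ∉ HF K L → ∀ a ∈ HF K L, g * a * g⁻¹ = a⁻¹ := by
    intro g hg
    obtain ⟨σ, hσ1, hσ⟩ := hσ' g hg
    have hθ : ∀ I : Ideal (𝓞 K), I ≠ ⊥ →
        g * (θ I).restrictScalars ℚ * g⁻¹ = ((θ I).restrictScalars ℚ)⁻¹ := by
      intro I
      induction I using UniqueFactorizationMonoid.induction_on_prime with
      | h₁ => exact fun h => absurd rfl h
      | h₂ I hI =>
        intro _
        have h0 : I = ⊤ := Ideal.isUnit_iff.1 hI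
        have h1 : θ I = 1 := by
          refine (hker I ?_ (htop I)).2 ⟨1, trivial, ?_⟩
          · rw [h0]; exact top_ne_bot
          · rw [h0, Ideal.span_singleton_one]
        rw [h1]
        have h3 : (1 : L ≃ₐ[K] L).restrictScalars ℚ = 1 := rfl
        rw [h3]
        group
      | h₃ I P hI hP ih =>
        intro _
        have hP' : P.IsPrime := Ideal.isPrime_of_prime hP
        have hP0 : P ≠ ⊥ := hP.ne_zero
        have hI0 : I ≠ ⊥ := hI
        have h4 : g * (θ P).restrictScalars ℚ * g⁻¹ = ((θ P).restrictScalars ℚ)⁻¹ := by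
          obtain ⟨γ, hγ⟩ := (hFRE K L).1 P hP' hP0
          obtain ⟨δ, hδ⟩ := hlift (g * γ.restrictScalars ℚ * g⁻¹) (hnorm.conj_mem _ (hres γ) g)
          have hfro : Fro (σ • P) δ := by
            refine Pool.Agent.H46.CA.fro_conj P γ δ g σ hσ (fun x => ?_) hγ
            exact congrArg (fun f : L ≃ₐ[ℚ] L => f x) hδ
          have h5 := hFro P γ (htop _) hγ
          have h6 := hFro (σ • P) δ (htop _) hfro
          obtain ⟨n, hn⟩ := smul_mul_principal h2 hσ1 P
          have h7 : θ ((σ • P) * P) = 1 := by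
            refine (hker _ ?_ (htop _)).2 ⟨(n : 𝓞 K), trivial, hn⟩
            exact mul_ne_zero (hsm σ P hP0) hP0
          rw [hmul' _ _ (hsm σ P hP0) hP0, ← h6, ← h5] at h7
          rw [← h5, ← hδ, eq_inv_iff_mul_eq_one, ← hrmul, h7]
          rfl
        rw [hmul' P I hP0 hI0, hrmul]
        have h8 := ih hI0
        calc g * ((θ P).restrictScalars ℚ * (θ I).restrictScalars ℚ) * g⁻¹ =
            (g * (θ P).restrictScalars ℚ * g⁻¹) * (g * (θ I).restrictScalars ℚ * g⁻¹) := by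
              group
          _ = ((θ P).restrictScalars ℚ)⁻¹ * ((θ I).restrictScalars ℚ)⁻¹ := by rw [h4, h8]
          _ = ((θ I).restrictScalars ℚ * (θ P).restrictScalars ℚ)⁻¹ := by group
          _ = ((θ P).restrictScalars ℚ * (θ I).restrictScalars ℚ)⁻¹ := by
              rw [← hrmul, ← hrmul, ← hmul' I P hI0 hP0, ← hmul' P I hP0 hI0, mul_comm I P]
    intro a ha
    obtain ⟨b, hb⟩ := hlift a ha
    obtain ⟨I, hI, -, hIb⟩ := hsurj b
    have := hθ I hI
    rw [hIb, hb] at this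
    exact this
  -- complex conjugation
  obtain ⟨c, hcc, hcF⟩ : ∃ c : L ≃ₐ[ℚ] L, c * c = 1 ∧ c ∉ HF K L := by
    obtain ⟨φ⟩ : Nonempty (L →+* ℂ) := inferInstance
    obtain ⟨τ, hτ⟩ := ComplexEmbedding.exists_comp_symm_eq_of_comp_eq (k := ℚ) φ
      (ComplexEmbedding.conjugate φ) (Subsingleton.elim _ _)
    have hτ' : ∀ x : L, φ (τ.symm x) = starRingEnd ℂ (φ x) := fun x =>
      congrArg (fun f : L →+* ℂ => f x) hτ
    refine ⟨τ.symm, ?_, ?_⟩
    · ext x
      apply φ.injective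
      change φ (τ.symm (τ.symm x)) = φ x
      rw [hτ', hτ', Complex.conj_conj]
    · intro hF
      have hreal : ComplexEmbedding.IsReal (φ.comp (algebraMap K L)) := by
        rw [ComplexEmbedding.isReal_iff]
        ext x
        change starRingEnd ℂ (φ (algebraMap K L x)) = φ (algebraMap K L x)
        rw [← hτ', hF x]
      have h3 := IsTotallyComplex.isComplex (InfinitePlace.mk (φ.comp (algebraMap K L)))
      rw [InfinitePlace.isComplex_mk_iff] at h3
      exact h3 hreal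
  intro g hg
  constructor
  · have ha : g * c⁻¹ ∈ HF K L := by
      rw [Subgroup.mul_mem_iff_of_index_two hidx]
      have : c⁻¹ ∉ HF K L := fun h => hcF (by simpa using (HF K L).inv_mem h)
      exact ⟨fun h => absurd h hg, fun h => absurd h this⟩
    have h3 := key c hcF _ ha
    have hci : c⁻¹ = c := inv_eq_of_mul_eq_one_left hcc
    calc g * g = (g * c⁻¹) * (c * (g * c⁻¹) * c⁻¹) * (c * c) := by group
      _ = 1 := by rw [h3, mul_inv_cancel, hcc, one_mul]
  · intro a ha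
    have h3 : g⁻¹ * a * g ∈ HF K L := by
      have := hnorm.conj_mem a ha g⁻¹
      rwa [inv_inv] at this
    have h4 := key g hg _ h3
    have h5 : g * (g⁻¹ * a * g) * g⁻¹ = a := by group
    rw [h5] at h4
    exact (inv_eq_iff_eq_inv.2 h4).symm

end Pool.Agent.H20.CN.INV
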